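import Pool.Agent.H69.NE.Nv
import Pool.Agent.H31.W1.H80.GEN.Chn

/-!
# The data of the target `N - C (u - H₁ᵤ)`

`NvD`: four windows, frame `c 0 .. c (r - 1)`, the coordinate `u = c r`, the coordinate
`N = c (r + 1)`, a polynomial `C` of the frame which is near the derivatives in the direction `u` of
the charts of `N`. `NvD.frd`: the frame. `shf_b`: a chart against the chart of a ball.
-/

set_option autoImplicit false

namespace Pool.W.V1E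

open Pool.V1E

open Finset Real MvPolynomial
open Pool.KA Pool.KSAT Pool.PB Pool.GEN Pool.D2R Pool.D2G30 Pool.ISO Pool.CHT Pool.CHX
open Pool.PB.Trl (rt rt_mem t_rt)


section one

variable {m J : ℕ} {F : Pool.KA.Fam m J}


/-- The sample is in the natural boxes. -/
theorem bt_box {c : ℕ → Fin m} {R i a w e : ℕ} {K : ℕ → ℕ} {g : ℕ → ℕ} {B : F.Ω → Prop}
    {G : Pool.GEN.PtT F → ℕ → MvPolynomial (Option (Fin m)) ℝ}
    {H : Pool.GEN.LnT F → ℕ → MvPolynomial (Option (Fin m)) ℝ} (h : Pool.W.GEN.ChOK F c R K a w e g B G H)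
    (hi : i ≤ R) {ω : F.Ω} (hω : B ω) (a' : ℕ) : Pool.GEN.NBx c (G (Pool.PB.ptr F J ω)) g a' (F.t ω) i (Pool.GEN.bt F ω) := by
  refine ⟨?_, fun l hl => h.pos ω hω l (by omega)⟩
  rw [Pool.V1E.bt_none', sub_self, abs_zero]
  positivity


/-- **A chart against the chart of a ball**, shifted to the sample. -/
theorem shf_b {c : ℕ → Fin m} {R n M ar x e k k' q D l : ℕ} {o : ℕ → ℕ}
    {z g gc gT g₀ : ℕ → ℕ → ℕ} {B : F.Ω → Prop}
    {G T : ℕ → Pool.GEN.PtT F → ℕ → MvPolynomial (Option (Fin m)) ℝ}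
    {H : ℕ → Pool.GEN.LnT F → ℕ → MvPolynomial (Option (Fin m)) ℝ}
    (hB : Pool.D2R.BalE F c R n M ar o z g gc gT g₀ (2 ^ x) B G T) (hk : k ≤ n) (hk' : k' ≤ n) (hq : q ≤ M)
    (ho : o k ≤ o k') (hz : z k q = o k' - o k)
    (hch : Pool.W.GEN.ChOK F c (R + 1) (fun _ => D) (o k') (o k') e (g₀ k') B (G k') (H k')) {ω : F.Ω}
    (hω : B ω) (hl : l ≤ R) {b : Option (Fin m) → ℝ}
    (hb : Pool.GEN.NBx c (G k' (Pool.PB.ptr F J ω)) (g₀ k') (o k') (F.t ω) l b) :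
    |eval b (G k (Pool.PB.ptr F J ω) l) + (F.x ω (c l) - eval (Pool.GEN.bt F ω) (G k (Pool.PB.ptr F J ω) l)) -
      eval b (G k' (Pool.PB.ptr F J ω) l)| ≤
      2 ^ (x + 2) / 2 ^ min (g k l + (o k' - o k)) (g₀ k' l) := by
  obtain ⟨κ', hκ'⟩ : ∃ κ' : ℝ, ∀ b, eval b (Pool.GEN.Gno (c l) J J (fun y => G k y l) (Pool.PB.ptr F J ω)) =
      eval b (G k (Pool.PB.ptr F J ω) l) + κ' := by
    refine ⟨((Pool.PB.ptr F J ω).1 (c l) : ℝ) / 2 ^ J -
      eval (Pool.GEN.bho J J (Pool.PB.ptr F J ω)) (G k (Pool.PB.ptr F J ω) l), fun b => ?_⟩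
    unfold Pool.GEN.Gno
    rw [map_add, eval_C]
  have h1 := hB.bal k hk k' hk' q hq ho hz ω hω l hl b hb
  have h2 := hB.bal k hk k' hk' q hq ho hz ω hω l hl (Pool.GEN.bt F ω) (Pool.W.V1E.bt_box hch (by omega) hω _)
  have h3 := hch.pos ω hω l (by omega)
  rw [hκ'] at h1 h2
  have h4 : (1 : ℝ) / 2 ^ g₀ k' l ≤ 2 ^ x / 2 ^ min (g k l + (o k' - o k)) (g₀ k' l) :=
    div_le_div₀ (by positivity) (one_le_pow₀ (by norm_num)) (by positivity)
      (pow_le_pow_right₀ (by norm_num) (min_le_right _ _))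
  have e1 : eval b (G k (Pool.PB.ptr F J ω) l) + (F.x ω (c l) - eval (Pool.GEN.bt F ω) (G k (Pool.PB.ptr F J ω) l)) -
      eval b (G k' (Pool.PB.ptr F J ω) l) =
      (eval b (G k (Pool.PB.ptr F J ω) l) + κ' - eval b (G k' (Pool.PB.ptr F J ω) l)) -
      (eval (Pool.GEN.bt F ω) (G k (Pool.PB.ptr F J ω) l) + κ' - eval (Pool.GEN.bt F ω) (G k' (Pool.PB.ptr F J ω) l)) +
      (F.x ω (c l) - eval (Pool.GEN.bt F ω) (G k' (Pool.PB.ptr F J ω) l)) := by ring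
  rw [e1]
  refine (abs_add_le _ _).trans ((add_le_add ((abs_sub _ _).trans (add_le_add h1 h2))
    (h3.trans h4)).trans ?_)
  rw [pow_add]
  have h5 : (0 : ℝ) ≤ 2 ^ x / 2 ^ min (g k l + (o k' - o k)) (g₀ k' l) := by positivity
  have e2 : (2 : ℝ) ^ x * 2 ^ 2 / 2 ^ min (g k l + (o k' - o k)) (g₀ k' l) =
      4 * (2 ^ x / 2 ^ min (g k l + (o k' - o k)) (g₀ k' l)) := by ring
  rw [e2]
  linarith

end one

section nv

variable {m J : ℕ} {F : Pool.KA.Fam m J} {c : ℕ → Fin m} {r D n M ar MB q₀ Q x p e su : ℕ}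
  {s : ℕ → ℕ} {qe : Fin r → ℕ} {o : ℕ → ℕ} {z g gc gT g₀ : ℕ → ℕ → ℕ} {B : F.Ω → Prop}
  {G T : ℕ → Pool.GEN.PtT F → ℕ → MvPolynomial (Option (Fin m)) ℝ}
  {H TH : ℕ → Pool.GEN.LnT F → ℕ → MvPolynomial (Option (Fin m)) ℝ}
  {Ht CL : Pool.GEN.LnT F → MvPolynomial (Option (Fin m)) ℝ}
  {Cp : Pool.GEN.PtT F → MvPolynomial (Option (Fin m)) ℝ}


/-! ### The letters -/


section alg

variable {P P₁ : ℕ → MvPolynomial (Option (Fin m)) ℝ} {K : MvPolynomial (Option (Fin m)) ℝ}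


end alg

end nv

end Pool.W.V1E
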