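import Pool.Agent.H69.NE.Nvw
import Pool.Agent.H31.W.H23.D2.Env
import Pool.Agent.H31.W1.H80.GEN.Chn

/-!
# Vectors of the frame in the windows

`nrm_win`: the natural norm over the charts of a ball of a vector of the frame. `nv_nrm`: the norms in
the windows `o 2`, `o 3`, over the thin boxes, and the thin chart of `u` against the ball chart.
`nv_dd`: the gradients of the charts of `u`. `nv_ht`: the row label of `N` against the ball chart.
-/

set_option autoImplicit false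

namespace Pool.W.V1E

open Pool.V1E

open Finset Real MvPolynomial
open Pool.KA Pool.KSAT Pool.PB Pool.GEN Pool.D2R Pool.D2G30 Pool.ISO Pool.CHT Pool.CHX
open Pool.PB.Trl (rt rt_mem t_rt)


/-- **The natural norm of a vector of the frame over the charts of a ball.** -/
theorem nrm_win (D r R : ℕ) (hrR : r ≤ R) : ∃ C : ℕ, ∀ {m J : ℕ} {F : Pool.KA.Fam m J} {c : ℕ → Fin m}
    {n M a k q e x : ℕ} {s : ℕ → ℕ} {o : ℕ → ℕ} {z : ℕ → ℕ → ℕ} {g gc gT g₀ : ℕ → ℕ → ℕ}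
    {B : F.Ω → Prop} {G T : ℕ → Pool.GEN.PtT F → ℕ → MvPolynomial (Option (Fin m)) ℝ}
    {H : ℕ → Pool.GEN.LnT F → ℕ → MvPolynomial (Option (Fin m)) ℝ}, Set.InjOn c (Set.Iio R) →
    Pool.D2R.BalE F c R n M a o z g gc gT g₀ (2 ^ x) B G T → k ≤ n → q ≤ M → o 0 ≤ o k →
    z 0 q = o k - o 0 → (∀ y l, (G 0 y l).totalDegree ≤ D) → (∀ y l, Pool.GEN.DepC c l (G 0 y l)) →
    Pool.W.GEN.ChOK F c (R + 1) (fun _ => D) (o k) (o k) e (g₀ k) B (G k) (H k) →
    (∀ j < r, g₀ k j ≤ g 0 j + (o k - o 0) + x) → (∀ j < r, g₀ k j ≤ s j + (o k - o 1) + x) →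
    ∀ ω, B ω → ∀ V : Option (Fin m) → ℝ, V none = 0 →
    (∀ j < r, |V (some (c j)) - Pool.D2R.dd (G 0 (Pool.PB.ptr F J ω) j) (Pool.GEN.bt F ω) V| ≤ 1 / 2 ^ s j) →
    Pool.D2R.nrm c (G k (Pool.PB.ptr F J ω)) (g₀ k) (o k) r (Pool.GEN.bt F ω) V ≤
      2 ^ (C * (x + 1)) * 2 ^ (o k - o 1) := by
  obtain ⟨C₁, hbd⟩ := Pool.W.D2R.bale_dd D R
  refine ⟨(r + 1) * (C₁ + 4), ?_⟩
  intro m J F c n M a k q e x s o z g gc gT g₀ B G T H hc hB hk hq h0k hz hdG hpG hch n1 n2 ω hω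
    V hV0 hV
  have hU0 : (0 : ℝ) ≤ 2 ^ x := by positivity
  obtain ⟨Z, hZ⟩ : ∃ Z : ℝ, Z = 2 ^ (C₁ + x + x + 2) := ⟨_, rfl⟩
  have hZ4 : 4 ≤ Z := by
    rw [hZ]
    calc (4 : ℝ) = 2 ^ 2 := by norm_num
      _ ≤ _ := pow_le_pow_right₀ (by norm_num) (by omega)
  have hZq : Z / 4 = 2 ^ (C₁ + x + x) := by
    rw [hZ, pow_add]
    norm_num
  obtain ⟨W, hW⟩ : ∃ W : ℝ, W = 2 ^ (o k - o 1) := ⟨_, rfl⟩
  have hW0 : 0 < W := by rw [hW]; positivity
  have hN := Pool.V1E.nrm_fr (c := c) (r := r) (P := G 0 (Pool.PB.ptr F J ω)) (G := G k (Pool.PB.ptr F J ω))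
    (g := g₀ k) (a := o k) (x := Pool.GEN.bt F ω) (V := V) (W := W) (Z := Z) hW0.le hZ4 hV0
    (fun j hj => by
      refine (mul_le_mul_of_nonneg_left (hV j hj) (by positivity)).trans ?_
      rw [mul_one_div, div_le_iff₀ (by positivity), hZq, hW]
      have h1 : (2 : ℝ) ^ g₀ k j ≤ 2 ^ (s j + (o k - o 1) + x) :=
        pow_le_pow_right₀ (by norm_num) (n2 j hj)
      refine h1.trans ?_
      rw [← pow_add, ← pow_add]
      exact pow_le_pow_right₀ (by norm_num) (by omega))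
    (fun j hj => by
      have h1 := hbd hc hB hU0 (Nat.zero_le n) hk hq h0k hz hdG hpG hch ω hω j (by omega) V
      refine (mul_le_mul_of_nonneg_left h1 (by positivity)).trans ?_
      rw [← mul_assoc]
      refine mul_le_mul_of_nonneg_right ?_ (Pool.D2R.nrm_nonneg _ _ _ _ _ _ _)
      rw [mul_div_assoc', div_le_iff₀ (by positivity), hZq]
      have h2 : g₀ k j ≤ min (g 0 j + (o k - o 0)) (g₀ k j) + x := by
        rcases le_total (g 0 j + (o k - o 0)) (g₀ k j) with h | h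
        · rw [min_eq_left h]
          exact n1 j hj
        · rw [min_eq_right h]
          omega
      have h3 : (2 : ℝ) ^ g₀ k j ≤ 2 ^ (min (g 0 j + (o k - o 0)) (g₀ k j) + x) :=
        pow_le_pow_right₀ (by norm_num) h2
      calc (2 : ℝ) ^ g₀ k j * (2 ^ C₁ * 2 ^ x) ≤
          2 ^ (min (g 0 j + (o k - o 0)) (g₀ k j) + x) * (2 ^ C₁ * 2 ^ x) :=
            mul_le_mul_of_nonneg_right h3 (by positivity)
        _ = _ := by
            rw [pow_add, pow_add, pow_add]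
            ring)
  rw [← hW]
  refine (hN r le_rfl).trans (mul_le_mul_of_nonneg_right ?_ hW0.le)
  rw [hZ, ← pow_mul]
  refine pow_le_pow_right₀ (by norm_num) ?_
  have h1 : C₁ + x + x + 2 ≤ (C₁ + 4) * (x + 1) := by nlinarith
  calc (C₁ + x + x + 2) * r ≤ (C₁ + 4) * (x + 1) * (r + 1) := Nat.mul_le_mul h1 (by omega)
    _ = _ := by ring


end Pool.W.V1E
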